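import Pool.Agent.H85.ZD.Final

/-!
# The Zariski dense orbit conjecture for affine-triangular automorphisms of affine 3-space

`K` is an algebraically closed field of characteristic zero, `α` an affine and `τ` a triangular automorphism of the affine
space of dimension three.  The alternative of the Zariski dense orbit conjecture holds for the compositions of `α` and `τ`.
-/

set_option autoImplicit false

namespace Pool.Agent.Results.MP_dd25b9_ag.AffineTriangular

open ZD85

/-- Every affine-triangular automorphism of affine 3-space over an algebraically closed field of characteristic zero has a
non-constant invariant rational function or a rational point with Zariski dense forward orbit. -/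
theorem result {K : Type*} [Field K] [CharZero K] [IsAlgClosed K] (α τ : PAut K 3)
    (hα : IsAffine α) (hτ : IsTriangular τ) :
    Zdo (α * τ) ∧ Zdo (τ * α) :=
  zdo_affine_triangular α τ hα hτ

end Pool.Agent.Results.MP_dd25b9_ag.AffineTriangular
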