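import Pool.Agent.H42.ZR.Fin

/-!
# MP_dd25b9_ag: Zariski dense orbits for iterated skew products

`K` is an algebraically closed field of characteristic `0`, `X` a variety over `K` with function field
`L`, `f : X ⇢ X` a dominant rational self-map, `τ = f^* : L → L`. We assume that some iterate `f^m` is
dominated by an iterated skew product: there are a generically finite dominant rational map
`A^n ⇢ X` (so `L' = K(x_0, …, x_{n-1})` is an algebraic extension of `L`) and a rational self-map `F` of
`A^n` over `f^m` (`σ = F^*` is `τ^m` on `L`) such that `F_i = σ(x_i)` is, for every `i`, of the form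
`P_i(x_i) / Q_i(x_i)` with polynomials `P_i`, `Q_i` over the field `K(x_j, j > i)` which are either

* fractional linear: `deg P_i, deg Q_i ≤ 1`, not proportional, or
* superattracting at infinity: `Q_i ≠ 0` and `deg P_i ≥ deg Q_i + 2`.

If `f` has no non-constant invariant rational function, or if the second possibility holds for all
`i`, then every non-empty affine open subset `U` of `X` (with coordinate ring `A ⊆ L`) contains a
`K`-point whose forward orbit is well defined, contained in `U` and Zariski dense.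
-/

open MvPolynomial

namespace Pool.Agent.Results.MP_dd25b9_ag.SkewTowers

/-- `P / Q` is a fractional linear function. -/
def FracLin {F : Type*} [Field F] (P Q : Polynomial F) : Prop :=
  P.natDegree ≤ 1 ∧ Q.natDegree ≤ 1 ∧ P.coeff 1 * Q.coeff 0 - P.coeff 0 * Q.coeff 1 ≠ 0

/-- `P / Q` has a superattracting fixed point at infinity. -/
def SuperAt {F : Type*} [Field F] (P Q : Polynomial F) : Prop :=
  Q ≠ 0 ∧ Q.natDegree + 2 ≤ P.natDegree

universe u v w

/-- `ε t : A → K` is the `t`-th point of the orbit. The map `f` is regular at `ε t` and sends it to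
`ε (t + 1)`: every `a ∈ A` has `f^* a = b / c` with `b, c ∈ A`, `c` not vanishing at `ε t`, and the
value of `a` at `ε (t + 1)` is the value of `b / c` at `ε t`. No non-zero `a ∈ A` vanishes on the
orbit. -/
theorem result {K : Type u} {L : Type v} {L' : Type w} [Field K] [CharZero K] [IsAlgClosed K]
    [Field L] [Field L'] [Algebra K L] [Algebra K L'] [Algebra L L'] [IsScalarTower K L L']
    [Algebra.IsAlgebraic L L'] {n : ℕ} (x : Fin n → L') (hx : AlgebraicIndependent K x)
    (hgen : IntermediateField.adjoin K (Set.range x) = ⊤)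
    (τ : L →ₐ[K] L) (σ : L' →ₐ[K] L') (m : ℕ) (hm : 0 < m)
    (hστ : ∀ u : L, σ (algebraMap L L' u) = algebraMap L L' (τ^[m] u))
    (P Q : ∀ i : Fin n, Polynomial (IntermediateField.adjoin K (x '' {j | i < j})))
    (hPQ : ∀ i, Polynomial.aeval (x i) (Q i) * σ (x i) = Polynomial.aeval (x i) (P i))
    (hfib : ∀ i, FracLin (P i) (Q i) ∨ SuperAt (P i) (Q i))
    (hinv : (∀ u : L, τ u = u → u ∈ Set.range (algebraMap K L)) ∨ ∀ i, SuperAt (P i) (Q i))
    (A : Subalgebra K L) (hA : A.FG) (hfrac : ∀ z : L, ∃ a b : A, b ≠ 0 ∧ z * b = a) :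
    ∃ ε : ℕ → A →ₐ[K] K,
      (∀ (t : ℕ) (a : A), ∃ b c : A, τ a * c = b ∧ ε t c ≠ 0 ∧ ε (t + 1) a * ε t c = ε t b) ∧
      ∀ a : A, a ≠ 0 → ∃ t, ε t a ≠ 0 := by
  rcases hinv with hinv | hsup
  · exact H42.ZR.Fin_main x hx hgen τ σ m hm hστ True
      (fun i => ⟨P i, Q i, hPQ i, (hfib i).imp (fun h => ⟨trivial, h⟩) id⟩) (fun _ => hinv) A hA
      hfrac
  · exact H42.ZR.Fin_main x hx hgen τ σ m hm hστ False
      (fun i => ⟨P i, Q i, hPQ i, Or.inr (hsup i)⟩) (fun h => h.elim) A hA hfrac

end Pool.Agent.Results.MP_dd25b9_ag.SkewTowers
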