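import Pool.Agent.H85.ZD.StabR

/-!
# The Zariski dense orbit conjecture for weighted stable automorphisms whose rate has large degree

`K` is an algebraically closed field of characteristic zero, `σ` an automorphism of the affine space of dimension `n ≥ 4`
which is algebraically stable for real weights `μ_i ≥ 0` with rate `θ > 1`.
-/

set_option autoImplicit false

namespace Pool.Agent.Results.MP_dd25b9_ag.StableRank

open ZD85 MvPolynomial

/-- `h1`: every monomial of `σ (X i)` has weight at most `θ μ_i`; `h3`: equality occurs for the iterate `σ ^ n`. -/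
theorem result {K : Type*} [Field K] [CharZero K] [IsAlgClosed K] {n : ℕ} (hn : 4 ≤ n)
    (σ : PAut K n) (μ : Fin n → ℝ) (hμ : ∀ i, 0 ≤ μ i) (θ : ℝ) (hθ : 1 < θ)
    (h1 : ∀ i, ∀ α ∈ (σ (X i)).support, ∑ j, (α j : ℝ) * μ j ≤ θ * μ i)
    (h3 : ∃ i, 0 < μ i ∧ ∃ α ∈ ((σ ^ n) (X i)).support, ∑ j, (α j : ℝ) * μ j = θ ^ n * μ i)
    (hdeg : (∀ k : ℕ, 1 ≤ k → LinearIndependent ℚ (fun t : Fin (n - 1) => ((θ ^ k) ^ (t : ℕ) : ℝ))) ∨
      ((∀ k : ℕ, 1 ≤ k → LinearIndependent ℚ (fun t : Fin (n - 2) => ((θ ^ k) ^ (t : ℕ) : ℝ))) ∧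
        ¬ IsIntegral ℤ (θ⁻¹))) :
    Zdo σ :=
  zdo_stable_rank hn σ μ hμ θ hθ h1 h3 hdeg

end Pool.Agent.Results.MP_dd25b9_ag.StableRank
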